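import Mathlib

/-! Successive approximation in a group with a complete central filtration. -/

set_option autoImplicit false

namespace Pool.Agent.FS.RevInv

variable {G : Type*} [Group G]

/-- The product of the conjugate of `j` by `g` with `j`. -/
def cm (g j : G) : G := g * j * g⁻¹ * j

/-- The product of four such elements. -/
def prod4 (J g : Fin 4 → G) : G := cm (g 0) (J 0) * cm (g 1) (J 1) * cm (g 2) (J 2) * cm (g 3) (J 3)

theorem cm_congr (c : Con G) {g g' : G} (j : G) (h : c g g') : c (cm g j) (cm g' j) :=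
  c.mul (c.mul (c.mul h (c.refl j)) (c.inv h)) (c.refl j)

theorem cm_one {j : G} (hj : j * j = 1) : cm 1 j = 1 := by simp [cm, hj]

theorem cm_mem (c : Con G) {g j : G} (hj : j * j = 1) (h : c g 1) : c (cm g j) 1 := by
  have := cm_congr c j h
  rwa [cm_one hj] at this

theorem conj_mem (c : Con G) {g j : G} (hj : j * j = 1) (h : c g 1) : c (j * g * j) 1 := by
  have := c.mul (c.mul (c.refl j) h) (c.refl j)
  rwa [mul_one, hj] at this

theorem inv_mem (c : Con G) {g : G} (h : c g 1) : c g⁻¹ 1 := by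
  have := c.inv h
  rwa [inv_one] at this

theorem mul_mem (c : Con G) {g g' : G} (h : c g 1) (h' : c g' 1) : c (g * g') 1 := by
  have := c.mul h h'
  rwa [mul_one] at this

theorem prod4_congr (c : Con G) (J : Fin 4 → G) {g g' : Fin 4 → G} (h : ∀ a, c (g a) (g' a)) :
    c (prod4 J g) (prod4 J g') :=
  c.mul (c.mul (c.mul (cm_congr c _ (h 0)) (cm_congr c _ (h 1))) (cm_congr c _ (h 2)))
    (cm_congr c _ (h 3))

theorem approx (c : ℕ → Con G) (J : Fin 4 → G) (hJ : ∀ a, J a * J a = 1)
    (anti : ∀ k a b, c (k + 2) a b → c 2 a b)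
    (sep : ∀ a b, (∀ k, c (k + 2) a b) → a = b)
    (compl : ∀ a : ℕ → G, (∀ k, c (k + 2) (a (k + 1)) (a k)) → ∃ b, ∀ k, c (k + 2) b (a k))
    (centr : ∀ k a b, c 2 a 1 → c (k + 2) b 1 → c (k + 3) (a * b) (b * a))
    (hS : ∀ k x, c (k + 2) x 1 → ∃ h : Fin 4 → G, (∀ a, c (k + 2) (h a) 1) ∧
      c (k + 3) x (prod4 J h))
    (F : G) (hF : c 2 F 1) : ∃ g : Fin 4 → G, F = prod4 J g := by
  have step : ∀ k (g : Fin 4 → G), (∀ a, c 2 (g a) 1) ∧ c (k + 2) F (prod4 J g) →
      ∃ g' : Fin 4 → G, (∀ a, c (k + 2) (g' a) (g a)) ∧ c (k + 3) F (prod4 J g') := by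
    rintro k g ⟨hg, hFg⟩
    obtain ⟨h, hh, hx⟩ := hS k (F * (prod4 J g)⁻¹) (by
      have := (c (k + 2)).mul hFg ((c (k + 2)).refl (prod4 J g)⁻¹)
      rwa [mul_inv_cancel] at this)
    refine ⟨fun a => h a * g a, fun a => ?_, ?_⟩
    · have := (c (k + 2)).mul (hh a) ((c (k + 2)).refl (g a))
      rwa [one_mul] at this
    · let π := (c (k + 3)).mk'
      have hc : ∀ a b, c 2 a 1 → c (k + 2) b 1 → Commute (π a) (π b) := fun a b ha hb => by
        show π a * π b = π b * π a
        rw [← map_mul, ← map_mul]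
        exact (Con.eq _).2 (centr k a b ha hb)
      have h1 : ∀ a, π (cm (h a * g a) (J a)) = π (cm (h a) (J a)) * π (cm (g a) (J a)) := by
        intro a
        have e1 : cm (h a * g a) (J a) = h a * (cm (g a) (J a) * (J a * (h a)⁻¹ * J a)) := by
          simp only [cm, mul_assoc, mul_inv_rev]
          rw [← mul_assoc (J a) (J a), hJ, one_mul]
        have e2 : cm (h a) (J a) = h a * (J a * (h a)⁻¹ * J a) := by
          simp only [cm, mul_assoc]
        rw [e1, e2, map_mul, map_mul, map_mul π (h a),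
          (hc _ _ (cm_mem _ (hJ a) (hg a)) (conj_mem _ (hJ a) (inv_mem _ (hh a)))).eq,
          mul_assoc (π (h a))]
      have h2 : ∀ a b, Commute (π (cm (g a) (J a))) (π (cm (h b) (J b))) := fun a b =>
        hc _ _ (cm_mem _ (hJ a) (hg a)) (cm_mem _ (hJ b) (hh b))
      have h3 : π (prod4 J fun a => h a * g a) = π (prod4 J h) * π (prod4 J g) := by
        simp only [prod4, map_mul, h1]
        rw [(h2 0 1).mul_mul_mul_comm, ((h2 0 2).mul_left (h2 1 2)).mul_mul_mul_comm,
          (((h2 0 3).mul_left (h2 1 3)).mul_left (h2 2 3)).mul_mul_mul_comm]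
      have h4 : π (F * (prod4 J g)⁻¹) = π (prod4 J h) := (Con.eq _).2 hx
      refine (Con.eq _).1 ?_
      show π F = π _
      rw [h3, ← h4, ← map_mul, inv_mul_cancel_right]
  choose! st hst using step
  let s : ℕ → Fin 4 → G := fun k => Nat.rec (fun _ => 1) (fun k g => st k g) k
  have hs : ∀ k, (∀ a, c 2 (s k a) 1) ∧ c (k + 2) F (prod4 J (s k)) := by
    intro k
    induction k with
    | zero =>
      refine ⟨fun a => (c 2).refl _, ?_⟩
      have : prod4 J (s 0) = 1 := by simp [prod4, s, cm_one (hJ _)]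
      rwa [this]
    | succ k ih =>
      exact ⟨fun a => (c 2).trans (anti k _ _ ((hst k _ ih).1 a)) (ih.1 a), (hst k _ ih).2⟩
  choose b hb using fun a => compl (fun k => s k a) fun k => (hst k _ (hs k)).1 a
  exact ⟨b, sep _ _ fun k => (c (k + 2)).trans (hs k).2
    (prod4_congr _ J fun a => (c (k + 2)).symm (hb a k))⟩

end Pool.Agent.FS.RevInv
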