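import Pool.Agent.FS.RevInv.Abs

/-! Successive approximation for a product of three conjugates of involutions. -/

set_option autoImplicit false

namespace Pool.Agent.FS.RevInv

variable {G : Type*} [Group G]

/-- The twisted product: it equals the product of the three conjugates times `(J 0 J 1 J 2)⁻¹`. -/
def prod3 (J g : Fin 3 → G) : G :=
  cm (g 0) (J 0) * (J 0 * cm (g 1) (J 1) * J 0) * (J 0 * (J 1 * cm (g 2) (J 2) * J 1) * J 0)

theorem prod3_congr (c : Con G) (J : Fin 3 → G) {g g' : Fin 3 → G} (h : ∀ a, c (g a) (g' a)) :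
    c (prod3 J g) (prod3 J g') :=
  c.mul (c.mul (cm_congr c _ (h 0)) (c.mul (c.mul (c.refl _) (cm_congr c _ (h 1))) (c.refl _)))
    (c.mul (c.mul (c.refl _) (c.mul (c.mul (c.refl _) (cm_congr c _ (h 2))) (c.refl _)))
      (c.refl _))

theorem prod3_mul (J g : Fin 3 → G) (hJ : ∀ a, J a * J a = 1) :
    prod3 J g * (J 0 * J 1 * J 2) =
      g 0 * J 0 * (g 0)⁻¹ * (g 1 * J 1 * (g 1)⁻¹) * (g 2 * J 2 * (g 2)⁻¹) := by
  have h : ∀ a (x : G), J a * (J a * x) = x := fun a x => by rw [← mul_assoc, hJ, one_mul]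
  simp only [prod3, cm, mul_assoc, h, hJ, mul_one]

theorem approx3 (c : ℕ → Con G) (J : Fin 3 → G) (hJ : ∀ a, J a * J a = 1)
    (anti : ∀ k a b, c (k + 2) a b → c 2 a b)
    (sep : ∀ a b, (∀ k, c (k + 2) a b) → a = b)
    (compl : ∀ a : ℕ → G, (∀ k, c (k + 2) (a (k + 1)) (a k)) → ∃ b, ∀ k, c (k + 2) b (a k))
    (centr : ∀ k a b, c 2 a 1 → c (k + 2) b 1 → c (k + 3) (a * b) (b * a))
    (hS : ∀ k x, c (k + 2) x 1 → ∃ h : Fin 3 → G, (∀ a, c (k + 2) (h a) 1) ∧
      c (k + 3) x (prod3 J h))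
    (F : G) (hF : c 2 F 1) : ∃ g : Fin 3 → G, F = prod3 J g := by
  have step : ∀ k (g : Fin 3 → G), (∀ a, c 2 (g a) 1) ∧ c (k + 2) F (prod3 J g) →
      ∃ g' : Fin 3 → G, (∀ a, c (k + 2) (g' a) (g a)) ∧ c (k + 3) F (prod3 J g') := by
    rintro k g ⟨hg, hFg⟩
    obtain ⟨h, hh, hx⟩ := hS k (F * (prod3 J g)⁻¹) (by
      have := (c (k + 2)).mul hFg ((c (k + 2)).refl (prod3 J g)⁻¹)
      rwa [mul_inv_cancel] at this)
    refine ⟨fun a => h a * g a, fun a => ?_, ?_⟩
    · have := (c (k + 2)).mul (hh a) ((c (k + 2)).refl (g a))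
      rwa [one_mul] at this
    · let π := (c (k + 3)).mk'
      have hc : ∀ a b, c 2 a 1 → c (k + 2) b 1 → Commute (π a) (π b) := fun a b ha hb => by
        show π a * π b = π b * π a
        rw [← map_mul, ← map_mul]
        exact (Con.eq _).2 (centr k a b ha hb)
      have h1 : ∀ a, π (cm (h a * g a) (J a)) = π (cm (h a) (J a)) * π (cm (g a) (J a)) := by
        intro a
        have e1 : cm (h a * g a) (J a) = h a * (cm (g a) (J a) * (J a * (h a)⁻¹ * J a)) := by
          simp only [cm, mul_assoc, mul_inv_rev]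
          rw [← mul_assoc (J a) (J a), hJ, one_mul]
        have e2 : cm (h a) (J a) = h a * (J a * (h a)⁻¹ * J a) := by
          simp only [cm, mul_assoc]
        rw [e1, e2, map_mul, map_mul, map_mul π (h a),
          (hc _ _ (cm_mem _ (hJ a) (hg a)) (conj_mem _ (hJ a) (inv_mem _ (hh a)))).eq,
          mul_assoc (π (h a))]
      have hj : ∀ (a : Fin 3) (x y z : G), π x = π y * π z →
          π (J a * x * J a) = π (J a * y * J a) * π (J a * z * J a) := by
        intro a x y z e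
        have e1 : J a * y * J a * (J a * z * J a) = J a * (y * z) * J a := by
          simp only [mul_assoc]
          rw [← mul_assoc (J a) (J a), hJ, one_mul]
        rw [← map_mul π (J a * y * J a), e1, map_mul, map_mul, e, map_mul, map_mul, map_mul]
      have g0 := cm_mem _ (hJ 0) (hg 0)
      have g1 := conj_mem _ (hJ 0) (cm_mem _ (hJ 1) (hg 1))
      have k1 := conj_mem _ (hJ 0) (cm_mem _ (hJ 1) (hh 1))
      have k2 := conj_mem _ (hJ 0) (conj_mem _ (hJ 1) (cm_mem _ (hJ 2) (hh 2)))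
      have h3 : π (prod3 J fun a => h a * g a) = π (prod3 J h) * π (prod3 J g) := by
        simp only [prod3]
        rw [map_mul π (_ * _), map_mul π (cm _ _), h1, hj 0 _ _ _ (h1 1),
          hj 0 _ _ _ (hj 1 _ _ _ (h1 2)), (hc _ _ g0 k1).mul_mul_mul_comm,
          ((hc _ _ g0 k2).mul_left (hc _ _ g1 k2)).mul_mul_mul_comm]
        simp only [map_mul]
      have h4 : π (F * (prod3 J g)⁻¹) = π (prod3 J h) := (Con.eq _).2 hx
      refine (Con.eq _).1 ?_
      show π F = π _
      rw [h3, ← h4, ← map_mul, inv_mul_cancel_right]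
  choose! st hst using step
  let s : ℕ → Fin 3 → G := fun k => Nat.rec (fun _ => 1) (fun k g => st k g) k
  have hs : ∀ k, (∀ a, c 2 (s k a) 1) ∧ c (k + 2) F (prod3 J (s k)) := by
    intro k
    induction k with
    | zero =>
      refine ⟨fun a => (c 2).refl _, ?_⟩
      have : prod3 J (s 0) = 1 := by simp [prod3, s, cm_one (hJ _), hJ]
      rwa [this]
    | succ k ih =>
      exact ⟨fun a => (c 2).trans (anti k _ _ ((hst k _ ih).1 a)) (ih.1 a), (hst k _ ih).2⟩
  choose b hb using fun a => compl (fun k => s k a) fun k => (hst k _ (hs k)).1 a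
  exact ⟨b, sep _ _ fun k => (c (k + 2)).trans (hs k).2
    (prod3_congr _ J fun a => (c (k + 2)).symm (hb a k))⟩

end Pool.Agent.FS.RevInv
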