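import Pool.Agent.FS.RevInv.Lin

/-! The four involutions and the spanning statement. -/

set_option autoImplicit false

namespace Pool.Agent.FS.RevInv

open MvPowerSeries Pool.Agent.Lib.MP_9aaefc_al

variable {m : ℕ}

open Fin.NatCast Fin.CommRing in
theorem const_of_refl (w : Fin (m + 2) → ℤ) (h1 : ∀ l, w (1 - l) = w l)
    (h2 : ∀ l, w (-(1 - l)) = w (-l)) (l : Fin (m + 2)) : w l = w 0 := by
  have h3 : ∀ l, w (l + 2) = w l := by
    intro l
    have a := h2 (l + 1)
    have b := h1 (-(l + 1))
    rw [show -(1 - (l + 1)) = l by ring] at a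
    rw [show 1 - -(l + 1) = l + 2 by ring] at b
    rw [b, a]
  have h4 : ∀ t : ℕ, w (t : Fin (m + 2)) = w 0 ∧ w ((t : Fin (m + 2)) + 1) = w 0 := by
    intro t
    induction t with
    | zero =>
      have := h1 0
      rw [sub_zero] at this
      simpa using this
    | succ t ih =>
      rw [Nat.cast_succ, show (t : Fin (m + 2)) + 1 + 1 = t + 2 by ring, h3]
      exact ⟨ih.2, ih.1⟩
  have := (h4 l.val).1
  rwa [Fin.cast_val_eq_self] at this

/-- The matrix of `x 0 ↦ x 0 + x 1`, `x 1 ↦ - x 1`. -/
def shear (m : ℕ) : Matrix (Fin (m + 2)) (Fin (m + 2)) ℂ :=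
  Matrix.of fun i j => if i = 0 then (if j = 0 then 1 else 0) + (if j = 1 then 1 else 0)
    else if i = 1 then (if j = 1 then -1 else 0) else if j = i then 1 else 0

theorem shear_row {M : Type*} [AddCommGroup M] [Module ℂ M] (v : Fin (m + 2) → M)
    (i : Fin (m + 2)) : ∑ j, shear m i j • v j =
      if i = 0 then v 0 + v 1 else if i = 1 then - v 1 else v i := by
  simp only [shear, Matrix.of_apply]
  split_ifs <;> simp [add_smul, Finset.sum_add_distrib]

theorem shear_sq : shear m * shear m = 1 := by
  ext i j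
  have := shear_row (fun l => shear m l j) i
  simp only [smul_eq_mul] at this
  rw [Matrix.mul_apply, this, Matrix.one_apply]
  by_cases h0 : i = 0
  · subst h0
    by_cases a : j = 0
    · simp [shear, a]
    · by_cases b : j = 1
      · simp [shear, b]
      · simp [shear, a, b, Ne.symm a]
  · by_cases h1 : i = 1
    · subst h1
      by_cases b : j = 1
      · simp [shear, b]
      · simp [shear, b, Ne.symm b]
    · simp [shear, h0, h1, eq_comm]

theorem lin_shear (i : Fin (m + 2)) : lin (shear m) i =
    if i = 0 then X 0 + X 1 else if i = 1 then - X 1 else X i :=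
  shear_row (fun j => (X j : PS (m + 2))) i

theorem mon_add (a b : Fin (m + 2) →₀ ℕ) :
    (monomial (a + b) (1 : ℂ) : PS (m + 2)) = monomial a 1 * monomial b 1 := by
  rw [monomial_mul_monomial, one_mul]

theorem sig_shear_aux (η : Fin (m + 2) →₀ ℕ) (h : η 0 = 0) :
    sig (lin (shear m)) (lin_const _) (monomial η 1) = (-1 : ℂ) ^ η 1 • monomial η 1 := by
  induction η using Finsupp.induction_linear with
  | zero => simp
  | add a b ha hb =>
    rw [Finsupp.add_apply] at h
    rw [mon_add, map_mul, ha (by omega), hb (by omega), smul_mul_smul_comm, Finsupp.add_apply,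
      pow_add]
  | single i t =>
    rw [← X_pow_eq, map_pow, sig_X, lin_shear]
    by_cases h0 : i = 0
    · subst h0
      rw [Finsupp.single_eq_same] at h
      simp [h]
    · by_cases h1 : i = 1
      · subst h1
        rw [if_neg h0, if_pos rfl, Finsupp.single_eq_same, ← smul_pow, neg_smul, one_smul]
      · simp [h0, h1, Ne.symm h1]

theorem coeff_shear (η : Fin (m + 2) →₀ ℕ) (h : η 0 = 0) (c : ℕ) :
    coeff (η + (Finsupp.single 0 c + Finsupp.single 1 1))
      (sig (lin (shear m)) (lin_const _) (monomial (η + Finsupp.single 0 (c + 1)) 1)) ≠ 0 := by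
  rw [mon_add, map_mul, sig_shear_aux η h, smul_mul_assoc, map_smul, coeff_add_monomial_mul,
    ← X_pow_eq, map_pow, sig_X, lin_shear, if_pos rfl, add_pow, map_sum, Finset.sum_eq_single c]
  · rw [show c + 1 - c = 1 by omega, X_pow_eq, X_pow_eq, ← mon_add, mul_comm (monomial _ _),
      ← nsmul_eq_mul, map_nsmul, coeff_monomial_same]
    simp
    exact_mod_cast Nat.succ_ne_zero c
  · intro l _ hl
    rw [X_pow_eq, X_pow_eq, ← mon_add, mul_comm, ← nsmul_eq_mul, map_nsmul, coeff_monomial,
      if_neg, smul_zero]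
    intro e
    have := DFunLike.congr_fun e 0
    simp at this
    exact hl this.symm
  · simp

theorem central_unique {β γ : Fin (m + 2) →₀ ℕ} {j : Fin (m + 2)} (h : β.degree = γ.degree)
    (hβ : ∀ l, wt β j l = wt β j 0) (hγ : ∀ l, wt γ j l = wt γ j 0) : β = γ := by
  have h1 : ∀ l, (β l : ℤ) - γ l = (β 0 : ℤ) - γ 0 := by
    intro l
    have a := hβ l
    have b := hγ l
    simp only [wt] at a b
    omega
  have h2 : ∑ l, ((β l : ℤ) - γ l) = 0 := by
    rw [Finsupp.degree_eq_sum, Finsupp.degree_eq_sum] at h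
    rw [Finset.sum_sub_distrib, sub_eq_zero]
    exact_mod_cast h
  simp only [h1, Finset.sum_const, Finset.card_univ, Fintype.card_fin, nsmul_eq_mul] at h2
  have h3 := (mul_eq_zero.1 h2).resolve_left (by positivity)
  ext l
  have := h1 l
  omega

theorem exists_four (m : ℕ) : ∃ A : Fin 4 → Matrix (Fin (m + 2)) (Fin (m + 2)) ℂ,
    (∀ a, A a * A a = 1) ∧ ∀ (k : ℕ) (W : Submodule ℂ (Fin (m + 2) → PS (m + 2))),
      ordV (m + 2) (k + 2 + 1) ≤ W → (∀ a, ∀ v ∈ ordV (m + 2) (k + 2), v - rho (A a) v ∈ W) →
      ordV (m + 2) (k + 2) ≤ W := by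
  obtain ⟨θ, hθ⟩ := exists_linearIndependent_of_le_rank (R := ℚ) (M := ℝ) (n := m + 2) (by
    rw [Real.rank_rat_real]
    exact (Cardinal.natCast_lt_aleph0.le).trans Cardinal.aleph0_le_continuum)
  let s : Fin (m + 2) → Fin (m + 2) := fun l => 1 - l
  let s' : Fin (m + 2) → Fin (m + 2) := fun l => -l
  have hs : ∀ l, s (s l) = l := fun l => sub_sub_cancel 1 l
  have hs' : ∀ l, s' (s' l) = l := fun l => neg_neg l
  let d : Fin (m + 2) → ℂ := fun l => (Real.exp (θ l - θ (s l)) : ℝ)
  have hd : ∀ l, d l * d (s l) = 1 := by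
    intro l
    simp only [d, hs]
    rw [← Complex.ofReal_mul, ← Real.exp_add]
    simp
  refine ⟨![mon s fun _ => 1, mon s d, mon s' fun _ => 1, shear m], fun a => ?_,
    fun k W hW hA => ?_⟩
  · fin_cases a
    · exact mon_sq hs fun _ => one_mul 1
    · exact mon_sq hs hd
    · exact mon_sq hs' fun _ => one_mul 1
    · exact shear_sq
  have stepA : ∀ β j, β.degree = k + 2 → ¬ (∀ l, wt β j (s l) = wt β j l) → mf β j ∈ W := by
    intro β j hβ hne
    have a0 : mf β j - rho (mon s fun _ => 1) (mf β j) ∈ W := hA 0 _ (mf_mem hβ j)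
    have a1 : mf β j - rho (mon s d) (mf β j) ∈ W := hA 1 _ (mf_mem hβ j)
    rw [rho_mon hs] at a0 a1
    simp only [one_pow, Finset.prod_const_one, mul_one, one_smul] at a0
    have a2 := W.sub_mem a0 a1
    rw [sub_sub_sub_cancel_left, ← sub_eq_zero.1 (sub_self (_ - _)), ← one_smul ℂ (mf _ (s j)),
      smul_smul, mul_one, ← sub_smul,
      W.smul_mem_iff (sub_ne_zero.2 fun h => hne (chi_eq_one hs hθ β j h))] at a2
    simpa using W.add_mem a0 a2
  have stepB : ∀ β j, β.degree = k + 2 → ¬ (∀ l, wt β j l = wt β j 0) → mf β j ∈ W := by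
    intro β j hβ hne
    by_cases h1 : ∀ l, wt β j (s l) = wt β j l
    · have a0 : mf β j - rho (mon s' fun _ => 1) (mf β j) ∈ W := hA 2 _ (mf_mem hβ j)
      rw [rho_mon hs'] at a0
      simp only [one_pow, Finset.prod_const_one, mul_one, one_smul] at a0
      have a1 := stepA (β.mapDomain s') (s' j) (by rw [Finsupp.degree_mapDomain, hβ]) fun h =>
        hne (const_of_refl _ h1 fun l => by simpa only [wt_map hs'] using h l)
      simpa using W.add_mem a0 a1
    · exact stepA β j hβ h1
  have stepC : ∀ j, (∀ i, i ≠ j → shear m i j ≠ 0 → ∀ β, β.degree = k + 2 → mf β i ∈ W) →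
      ∀ γ, γ.degree = k + 2 → mf γ j ∈ W := by
    intro j hj γ hγ
    by_cases hc : ∀ l, wt γ j l = wt γ j 0
    swap
    · exact stepB γ j hγ hc
    have h1 : 1 ≤ γ 1 := by
      by_contra h1
      have h0 : γ = Finsupp.single j 1 := by
        ext l
        have a := hc l
        have b := hc 1
        have c := hc j
        have e := hc 0
        simp only [wt, if_true] at a b c
        rw [Finsupp.single_apply]
        by_cases h2 : (1 : Fin (m + 2)) = j
        · have h3 : (0 : Fin (m + 2)) ≠ j := by rw [← h2]; exact zero_ne_one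
          rw [if_pos h2, if_neg h3] at b
          omega
        · rw [if_neg h2] at b
          by_cases h3 : l = j
          · rw [if_pos h3] at a
            rw [if_pos h3.symm]
            omega
          · rw [if_neg h3] at a
            rw [if_neg (Ne.symm h3)]
            omega
      rw [h0, Finsupp.degree_single] at hγ
      omega
    obtain ⟨η, hη, e⟩ : ∃ η : Fin (m + 2) →₀ ℕ, η 0 = 0 ∧
        γ = η + (Finsupp.single 0 (γ 0) + Finsupp.single 1 1) := by
      refine ⟨γ - (Finsupp.single 0 (γ 0) + Finsupp.single 1 1), by simp, ?_⟩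
      rw [tsub_add_cancel_of_le]
      intro l
      by_cases a : l = 0
      · simp [a]
      · by_cases b : l = 1
        · simp [b, h1]
        · simp [a, b]
    set β := η + Finsupp.single 0 (γ 0 + 1) with hβdef
    have hβ : β.degree = k + 2 := by
      rw [e] at hγ
      simp only [hβdef, map_add, Finsupp.degree_single] at hγ ⊢
      omega
    have hβW : mf β j ∈ W := by
      refine stepB β j hβ fun h => ?_
      have a := h 1
      have b := hc 1
      have e1 := DFunLike.congr_fun e 1
      simp only [wt, hβdef] at a b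
      simp [hη] at a e1
      omega
    have a0 : mf β j - rho (shear m) (mf β j) ∈ W := hA 3 _ (mf_mem hβ j)
    have a1 := W.sub_mem hβW a0
    rw [sub_sub_cancel] at a1
    have hjj : shear m j j ≠ 0 := by
      by_cases a : j = 0
      · simp [shear, a]
      · by_cases b : j = 1
        · simp [shear, b]
        · simp [shear, a, b]
    refine mf_mem_of hW (rho_mem _ (mf_mem hβ j)) a1 hγ ?_ fun β' i hβ' hne hn => ?_
    · rw [rho_mf, map_smul, smul_eq_mul]
      refine mul_ne_zero hjj ?_
      have := coeff_shear η hη (γ 0)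
      rwa [← e] at this
    · by_cases hi : i = j
      · subst hi
        exact stepB β' i hβ' fun h => hn ⟨central_unique (hβ'.trans hγ.symm) h hc, rfl⟩
      · rw [rho_mf, map_smul, smul_eq_mul] at hne
        exact hj i hi (left_ne_zero_of_mul hne) β' hβ'
  have stepD : ∀ j, j ≠ 1 → ∀ γ, γ.degree = k + 2 → mf γ j ∈ W := by
    intro j hj
    refine stepC j fun i hi hne => absurd ?_ hne
    by_cases a : i = 0
    · subst a
      simp [shear, hj, Ne.symm hi]
    · by_cases b : i = 1
      · simp [shear, b, hj]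
      · simp [shear, a, b, Ne.symm hi]
  intro v hv
  refine mem_of_mf hW hv fun β j hβ _ => ?_
  by_cases hj : j = 1
  · subst hj
    exact stepC 1 (fun i hi _ => stepD i hi) β hβ
  · exact stepD j hj β hβ

end Pool.Agent.FS.RevInv
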