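import Pool.Agent.Lib.MP_9aaefc_al.Inv

/-! Four linear involutions without common invariants on homogeneous vector fields. -/

set_option autoImplicit false

namespace Pool.Agent.FS.RevInv

open MvPowerSeries Pool.Agent.Lib.MP_9aaefc_al

variable {n : ℕ}

/-- The linear formal map with matrix `A`. -/
noncomputable def lin (A : Matrix (Fin n) (Fin n) ℂ) : Fin n → PS n := fun i => ∑ j, A i j • X j

theorem lin_const (A : Matrix (Fin n) (Fin n) ℂ) (i : Fin n) : constantCoeff (lin A i) = 0 := by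
  simp [lin]

/-- Conjugation of a vector field by a linear involution. -/
noncomputable def rho (A : Matrix (Fin n) (Fin n) ℂ) : (Fin n → PS n) →ₗ[ℂ] (Fin n → PS n) :=
  LinearMap.pi fun i => ∑ j, A i j • (sig (lin A) (lin_const A)).toLinearMap ∘ₗ LinearMap.proj j

theorem rho_apply (A : Matrix (Fin n) (Fin n) ℂ) (v : Fin n → PS n) (i : Fin n) :
    rho A v i = ∑ j, A i j • sig (lin A) (lin_const A) (v j) := by
  simp [rho]

/-- Vector fields of order at least `k`. -/
noncomputable def ordV (n k : ℕ) : Submodule ℂ (Fin n → PS n) :=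
  Submodule.pi Set.univ fun _ => (ordI n k).restrictScalars ℂ

theorem mem_ordV {k : ℕ} {v : Fin n → PS n} : v ∈ ordV n k ↔ ∀ i, v i ∈ ordI n k := by
  simp [ordV, Submodule.mem_pi]

theorem smul_mem_ordI {k : ℕ} (c : ℂ) {f : PS n} (hf : f ∈ ordI n k) : c • f ∈ ordI n k := by
  rw [Algebra.smul_def]
  exact Ideal.mul_mem_left _ _ hf

theorem rho_mem (A : Matrix (Fin n) (Fin n) ℂ) {k : ℕ} {v : Fin n → PS n} (hv : v ∈ ordV n k) :
    rho A v ∈ ordV n k := by
  rw [mem_ordV] at hv ⊢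
  intro i
  rw [rho_apply]
  exact Ideal.sum_mem _ fun j _ => smul_mem_ordI _ (sig_mem _ _ (hv j))

/-- The monomial vector field. -/
noncomputable def mf (β : Fin n →₀ ℕ) (j : Fin n) : Fin n → PS n := Pi.single j (monomial β 1)

theorem mf_mem {k : ℕ} {β : Fin n →₀ ℕ} (h : β.degree = k) (j : Fin n) : mf β j ∈ ordV n k := by
  rw [mem_ordV]
  intro i
  by_cases hi : i = j
  · subst hi
    rw [mf, Pi.single_eq_same, mem_ordI_iff]
    intro d hd
    rw [coeff_monomial, if_neg]
    rintro rfl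
    omega
  · rw [mf, Pi.single_eq_of_ne hi]
    exact Ideal.zero_mem _

theorem coeff_mf (β γ : Fin n →₀ ℕ) (i j : Fin n) :
    coeff γ (mf β j i) = if γ = β ∧ i = j then 1 else 0 := by
  by_cases hi : i = j
  · subst hi
    rw [mf, Pi.single_eq_same, coeff_monomial]
    simp
  · rw [mf, Pi.single_eq_of_ne hi]
    simp [hi]

theorem rho_mf (A : Matrix (Fin n) (Fin n) ℂ) (β : Fin n →₀ ℕ) (j i : Fin n) :
    rho A (mf β j) i = A i j • sig (lin A) (lin_const A) (monomial β 1) := by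
  rw [rho_apply, Finset.sum_eq_single j]
  · rw [mf, Pi.single_eq_same]
  · intro l _ hl
    rw [mf, Pi.single_eq_of_ne hl, map_zero, smul_zero]
  · simp

theorem mem_of_mf {k : ℕ} {W : Submodule ℂ (Fin n → PS n)} (hW : ordV n (k + 1) ≤ W)
    {v : Fin n → PS n} (hv : v ∈ ordV n k)
    (h : ∀ β j, β.degree = k → coeff β (v j) ≠ 0 → mf β j ∈ W) : v ∈ W := by
  rw [← Finset.univ_sum_single v]
  refine W.sum_mem fun j _ => ?_
  set p : MvPolynomial (Fin n) ℂ := truncTotal (k + 1) (v j) with hp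
  have hr := sub_trunc_mem (k + 1) (v j)
  rw [← hp] at hr
  have hsum : (p : PS n) = ∑ d ∈ p.support, (p.coeff d) • (monomial d (1 : ℂ) : PS n) := by
    conv_lhs => rw [p.as_sum]
    rw [← MvPolynomial.coeToMvPowerSeries.ringHom_apply, map_sum]
    refine Finset.sum_congr rfl fun d _ => ?_
    rw [MvPolynomial.coeToMvPowerSeries.ringHom_apply, MvPolynomial.coe_monomial, ← map_smul,
      smul_eq_mul, mul_one]
  let S : PS n →ₗ[ℂ] (Fin n → PS n) := LinearMap.single ℂ (fun _ => PS n) j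
  have e : (Pi.single j (v j) : Fin n → PS n) = S (v j - p) + S p := by
    rw [← map_add, sub_add_cancel]; rfl
  rw [e]
  refine W.add_mem (hW (mem_ordV.2 fun i => ?_)) ?_
  · by_cases hi : i = j
    · subst hi
      simpa [S] using hr
    · simp [S, hi]
  · rw [hsum, map_sum]
    refine W.sum_mem fun d hd => ?_
    rw [map_smul]
    have h1 : p.coeff d ≠ 0 := MvPolynomial.mem_support_iff.mp hd
    have h2 : d.degree < k + 1 := by
      by_contra h2
      exact h1 (by rw [hp]; exact coeff_truncTotal_eq_zero _ (by omega))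
    rw [hp, coeff_truncTotal _ h2] at h1
    have h3 : ¬ d.degree < k := fun h3 => h1 (mem_ordI_iff.1 (mem_ordV.1 hv j) d h3)
    exact W.smul_mem _ (h d j (by omega) h1)

theorem mf_mem_of {k : ℕ} {W : Submodule ℂ (Fin n → PS n)} (hW : ordV n (k + 1) ≤ W)
    {v : Fin n → PS n} (hv : v ∈ ordV n k) (hvW : v ∈ W) {γ : Fin n →₀ ℕ} {j : Fin n}
    (hγ : γ.degree = k) (hc : coeff γ (v j) ≠ 0)
    (h : ∀ β i, β.degree = k → coeff β (v i) ≠ 0 → ¬ (β = γ ∧ i = j) → mf β i ∈ W) :
    mf γ j ∈ W := by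
  have h1 : v - coeff γ (v j) • mf γ j ∈ W := by
    refine mem_of_mf hW ((ordV n k).sub_mem hv ((ordV n k).smul_mem _ (mf_mem hγ j))) ?_
    intro β i hβ hne
    rw [Pi.sub_apply, Pi.smul_apply, map_sub, map_smul, coeff_mf] at hne
    by_cases h2 : β = γ ∧ i = j
    · rw [if_pos h2, h2.1, h2.2] at hne
      simp at hne
    · rw [if_neg h2, smul_zero, sub_zero] at hne
      exact h β i hβ hne h2
  have h2 := W.sub_mem hvW h1
  rw [sub_sub_cancel] at h2
  exact (W.smul_mem_iff hc).1 h2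

/-- A monomial matrix. -/
def mon (σ : Fin n → Fin n) (d : Fin n → ℂ) : Matrix (Fin n) (Fin n) ℂ :=
  Matrix.of fun i j => if j = σ i then d i else 0

theorem mon_sq {σ : Fin n → Fin n} {d : Fin n → ℂ} (hσ : ∀ i, σ (σ i) = i)
    (hd : ∀ i, d i * d (σ i) = 1) : mon σ d * mon σ d = 1 := by
  ext i j
  rw [Matrix.mul_apply, Finset.sum_eq_single (σ i), Matrix.one_apply]
  · by_cases h : i = j
    · simp [mon, hσ, hd, ← h]
    · simp [mon, hσ, h, Ne.symm h]
  · intro l _ hl
    simp [mon, hl]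
  · simp

theorem lin_mon (σ : Fin n → Fin n) (d : Fin n → ℂ) (i : Fin n) :
    lin (mon σ d) i = d i • X (σ i) := by
  simp [lin, mon]

theorem sig_mon (σ : Fin n → Fin n) (d : Fin n → ℂ) (β : Fin n →₀ ℕ) :
    sig (lin (mon σ d)) (lin_const _) (monomial β 1) =
      (∏ l, d l ^ β l) • (monomial (β.mapDomain σ) 1 : PS n) := by
  induction β using Finsupp.induction_linear with
  | zero => simp
  | add a b ha hb =>
    have : ∀ a b : Fin n →₀ ℕ, (monomial (a + b) (1 : ℂ) : PS n) = monomial a 1 * monomial b 1 := by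
      intro a b
      rw [monomial_mul_monomial, one_mul]
    rw [this, map_mul, ha, hb, Finsupp.mapDomain_add, this, smul_mul_smul_comm,
      ← Finset.prod_mul_distrib]
    simp [pow_add]
  | single i m =>
    rw [← X_pow_eq, map_pow, sig_X, lin_mon, Finsupp.mapDomain_single, ← X_pow_eq, smul_pow,
      Finset.prod_eq_single i]
    · simp
    · intro l _ hl
      simp [hl]
    · simp

theorem rho_mon {σ : Fin n → Fin n} (hσ : ∀ i, σ (σ i) = i) (d : Fin n → ℂ) (β : Fin n →₀ ℕ)
    (j : Fin n) : rho (mon σ d) (mf β j) =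
      (d (σ j) * ∏ l, d l ^ β l) • mf (β.mapDomain σ) (σ j) := by
  funext i
  rw [rho_mf, sig_mon, Pi.smul_apply, mf]
  by_cases hi : i = σ j
  · subst hi
    simp [mon, hσ, mul_smul]
  · have : j ≠ σ i := fun h => hi (by rw [h, hσ])
    simp [mon, hi, this]

/-- The weight of a monomial vector field. -/
def wt (β : Fin n →₀ ℕ) (j l : Fin n) : ℤ := (β l : ℤ) - if l = j then 1 else 0

theorem wt_map {σ : Fin n → Fin n} (hσ : ∀ i, σ (σ i) = i) (β : Fin n →₀ ℕ) (j l : Fin n) :
    wt (β.mapDomain σ) (σ j) l = wt β j (σ l) := by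
  have hinj : Function.Injective σ := Function.Involutive.injective hσ
  have h1 : β.mapDomain σ l = β (σ l) := by
    conv_lhs => rw [← hσ l]
    exact Finsupp.mapDomain_apply hinj β (σ l)
  have h2 : (l = σ j) ↔ (σ l = j) := ⟨fun h => by rw [h, hσ], fun h => by rw [← h, hσ]⟩
  simp only [wt, h1, h2]

theorem chi_eq_one {σ : Fin n → Fin n} (hσ : ∀ i, σ (σ i) = i) {θ : Fin n → ℝ}
    (hθ : LinearIndependent ℚ θ) (β : Fin n →₀ ℕ) (j : Fin n)
    (h : ((Real.exp (θ (σ j) - θ (σ (σ j))) : ℝ) : ℂ) *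
      ∏ l, ((Real.exp (θ l - θ (σ l)) : ℝ) : ℂ) ^ β l = 1) (l : Fin n) :
    wt β j (σ l) = wt β j l := by
  have h1 : Real.exp (θ (σ j) - θ (σ (σ j))) * ∏ l, Real.exp (θ l - θ (σ l)) ^ β l = 1 := by
    exact_mod_cast h
  simp only [← Real.exp_nat_mul] at h1
  rw [← Real.exp_sum, ← Real.exp_add, Real.exp_eq_one_iff, hσ] at h1
  have h2 : ∑ l, (wt β j l : ℝ) * (θ l - θ (σ l)) = 0 := by
    rw [← h1]
    simp only [wt, Int.cast_sub, Int.cast_natCast, Int.cast_ite, Int.cast_one, Int.cast_zero,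
      sub_mul, Finset.sum_sub_distrib, ite_mul, one_mul, zero_mul, Finset.sum_ite_eq',
      Finset.mem_univ, if_true]
    ring
  have h3 : ∑ l, (wt β j l : ℝ) * θ (σ l) = ∑ l, (wt β j (σ l) : ℝ) * θ l := by
    have hinv : Function.Involutive σ := hσ
    refine Fintype.sum_bijective σ hinv.bijective _ _ fun l => ?_
    rw [hσ]
  have h4 := Fintype.linearIndependent_iff.1 hθ (fun l => ((wt β j l - wt β j (σ l) : ℤ) : ℚ)) (by
    simp only [mul_sub, Finset.sum_sub_distrib, h3] at h2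
    simp only [Rat.smul_def, Rat.cast_intCast, Int.cast_sub, Rat.cast_sub, sub_mul,
      Finset.sum_sub_distrib]
    exact h2) l
  have h5 : wt β j l - wt β j (σ l) = 0 := by exact_mod_cast h4
  omega

end Pool.Agent.FS.RevInv
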