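import Pool.Agent.FS.RevInv.Lin

/-! Factorisation of a non-scalar matrix into two factors with prescribed spectra (Sourour). -/

set_option autoImplicit false

namespace Pool.Agent.FS.RevInv

open Matrix

variable {n : ℕ}

/-- A bordered matrix. -/
def blk (a : ℂ) (y x : Fin n → ℂ) (R : Matrix (Fin n) (Fin n) ℂ) :
    Matrix (Fin (n + 1)) (Fin (n + 1)) ℂ :=
  Matrix.of (Fin.cons (Fin.cons a y) fun i => Fin.cons (x i) (R i))

theorem exists_blk (A : Matrix (Fin (n + 1)) (Fin (n + 1)) ℂ) : ∃ a y x R, A = blk a y x R := by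
  refine ⟨A 0 0, fun j => A 0 j.succ, fun i => A i.succ 0, Matrix.of fun i j => A i.succ j.succ, ?_⟩
  ext i j
  refine Fin.cases ?_ (fun i => ?_) i <;> refine Fin.cases ?_ (fun j => ?_) j <;> simp [blk]

theorem blk_mul (a a' : ℂ) (y x y' x' : Fin n → ℂ) (R R' : Matrix (Fin n) (Fin n) ℂ) :
    blk a y x R * blk a' y' x' R' = blk (a * a' + y ⬝ᵥ x') (a • y' + y ᵥ* R') (a' • x + R *ᵥ x')
      (vecMulVec x y' + R * R') := by
  ext i j
  refine Fin.cases ?_ (fun i => ?_) i <;> refine Fin.cases ?_ (fun j => ?_) j <;>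
    simp [blk, Matrix.mul_apply, Fin.sum_univ_succ, dotProduct, vecMul, mulVec, vecMulVec_apply,
      mul_comm]

theorem blk_sub (μ a : ℂ) (y x : Fin n → ℂ) (R : Matrix (Fin n) (Fin n) ℂ) :
    μ • (1 : Matrix _ _ ℂ) - blk a y x R = blk (μ - a) (-y) (-x) (μ • (1 : Matrix _ _ ℂ) - R) := by
  ext i j
  refine Fin.cases ?_ (fun i => ?_) i <;> refine Fin.cases ?_ (fun j => ?_) j <;>
    simp [blk, Matrix.one_apply, (Fin.succ_ne_zero _).symm]

theorem blk_smul_one (a : ℂ) :
    blk a 0 0 (a • (1 : Matrix (Fin n) (Fin n) ℂ)) = a • (1 : Matrix _ _ ℂ) := by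
  ext i j
  refine Fin.cases ?_ (fun i => ?_) i <;> refine Fin.cases ?_ (fun j => ?_) j <;>
    simp [blk, Matrix.one_apply, (Fin.succ_ne_zero _).symm]

theorem blk_one : blk 1 0 0 (1 : Matrix (Fin n) (Fin n) ℂ) = 1 := by
  simpa using blk_smul_one (n := n) 1

theorem det_blk_low (a : ℂ) (x : Fin n → ℂ) (R : Matrix (Fin n) (Fin n) ℂ) :
    (blk a 0 x R).det = a * R.det := by
  rw [det_succ_row_zero, Fin.sum_univ_succ]
  have : (blk a 0 x R).submatrix Fin.succ (Fin.succAbove 0) = R := by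
    ext i j
    simp [blk]
  rw [this]
  simp [blk]

theorem det_blk_up (a : ℂ) (y : Fin n → ℂ) (R : Matrix (Fin n) (Fin n) ℂ) :
    (blk a y 0 R).det = a * R.det := by
  rw [det_succ_column_zero, Fin.sum_univ_succ]
  have : (blk a y 0 R).submatrix (Fin.succAbove 0) Fin.succ = R := by
    ext i j
    simp [blk]
  rw [this]
  simp [blk]

/-- The eigenvalues of `B`, with multiplicity, are the `β i`. -/
def CP (B : Matrix (Fin n) (Fin n) ℂ) (β : Fin n → ℂ) : Prop :=
  ∀ μ : ℂ, (μ • (1 : Matrix _ _ ℂ) - B).det = ∏ i, (μ - β i)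

/-- `A` is a product of two matrices with eigenvalues `β i` and `γ i`. -/
def Good (A : Matrix (Fin n) (Fin n) ℂ) (β γ : Fin n → ℂ) : Prop :=
  ∃ B C, A = B * C ∧ CP B β ∧ CP C γ

theorem det_conj' {P P' : Matrix (Fin n) (Fin n) ℂ} (h : P * P' = 1) (A : Matrix (Fin n) (Fin n) ℂ) :
    (P * A * P').det = A.det := by
  rw [det_mul, det_mul, mul_right_comm, ← det_mul, h, det_one, one_mul]

theorem good_conj {P P' A : Matrix (Fin n) (Fin n) ℂ} (h : P * P' = 1) {β γ : Fin n → ℂ}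
    (hA : Good (P' * A * P) β γ) : Good A β γ := by
  obtain ⟨B, C, e, hB, hC⟩ := hA
  have h' : P' * P = 1 := mul_eq_one_comm.1 h
  have k : ∀ (B : Matrix (Fin n) (Fin n) ℂ) β, CP B β → CP (P * B * P') β := by
    intro B β hB μ
    rw [← hB μ, ← det_conj' h (μ • (1 : Matrix _ _ ℂ) - B), mul_sub, sub_mul, Matrix.mul_smul,
      mul_one, Matrix.smul_mul, h]
  refine ⟨P * B * P', P * C * P', ?_, k _ _ hB, k _ _ hC⟩
  calc A = (P * P') * A * (P * P') := by rw [h, one_mul, mul_one]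
    _ = P * (P' * A * P) * P' := by simp only [mul_assoc]
    _ = P * B * (P' * P) * C * P' := by rw [e, h', mul_one, mul_assoc P B C]
    _ = _ := by simp only [mul_assoc]

theorem sourour (n : ℕ) : ∀ (A : Matrix (Fin (n + 1)) (Fin (n + 1)) ℂ) (β γ : Fin (n + 1) → ℂ),
    (n = 0 ∨ ¬ ∃ c : ℂ, A = c • (1 : Matrix _ _ ℂ)) → (∀ i, β i ≠ 0) → (∀ i, γ i ≠ 0) →
    ∏ i, β i * γ i = A.det → Good A β γ := by
  induction n with
  | zero =>
    intro A β γ _ _ _ h
    refine ⟨diagonal β, diagonal γ, ?_, fun μ => ?_, fun μ => ?_⟩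
    · ext i j
      fin_cases i
      fin_cases j
      simpa using h.symm
    · simp
    · simp
  | succ n ih =>
    intro A β γ hA hβ hγ h
    have hδ : β 0 * γ 0 ≠ 0 := mul_ne_zero (hβ 0) (hγ 0)
    set δ := β 0 * γ 0 with hδdef
    have hdet : ∀ (y x : Fin (n + 1) → ℂ) R, (blk δ y x R).det =
        δ * (R - δ⁻¹ • vecMulVec x y).det := by
      intro y x R
      have : blk δ y x R = blk 1 0 (δ⁻¹ • x) 1 * blk δ y 0 (R - δ⁻¹ • vecMulVec x y) := by
        rw [blk_mul]
        simp [smul_smul, mul_inv_cancel₀ hδ, smul_vecMulVec]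
      rw [this, det_mul, det_blk_low, det_blk_up]
      simp
    have hdet2 : ∀ (y x : Fin (n + 1) → ℂ) R, (blk δ y x R).det = A.det →
        ∏ i : Fin (n + 1), β i.succ * γ i.succ = (R - δ⁻¹ • vecMulVec x y).det := by
      intro y x R e
      rw [hdet, ← h, Fin.prod_univ_succ] at e
      exact (mul_left_cancel₀ hδ e).symm
    have fin : ∀ (y x : Fin (n + 1) → ℂ) R, (blk δ y x R).det = A.det →
        (n = 0 ∨ ¬ ∃ c : ℂ, R - δ⁻¹ • vecMulVec x y = c • (1 : Matrix _ _ ℂ)) →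
        Good (blk δ y x R) β γ := by
      intro y x R e hS
      obtain ⟨B, C, e1, hB, hC⟩ := ih _ (fun i => β i.succ) (fun i => γ i.succ) hS
        (fun i => hβ _) (fun i => hγ _) (hdet2 y x R e)
      refine ⟨blk (β 0) 0 ((γ 0)⁻¹ • x) B, blk (γ 0) ((β 0)⁻¹ • y) 0 C, ?_, fun μ => ?_,
        fun μ => ?_⟩
      · rw [blk_mul, ← e1]
        simp [smul_smul, mul_inv_cancel₀ (hβ 0), mul_inv_cancel₀ (hγ 0), smul_vecMulVec,
          vecMulVec_smul, hδdef, mul_comm]
      · rw [blk_sub, neg_zero, det_blk_low, hB, Fin.prod_univ_succ (fun i => μ - β i)]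
      · rw [blk_sub, neg_zero, det_blk_up, hC, Fin.prod_univ_succ (fun i => μ - γ i)]
    have up : ∀ w : Fin (n + 1) → ℂ, blk 1 w 0 (1 : Matrix _ _ ℂ) * blk 1 (-w) 0 1 = 1 := by
      intro w
      rw [blk_mul]
      simpa using blk_one
    have lo : ∀ u : Fin (n + 1) → ℂ, blk 1 0 u (1 : Matrix _ _ ℂ) * blk 1 0 (-u) 1 = 1 := by
      intro u
      rw [blk_mul]
      simpa using blk_one
    have cup : ∀ (w : Fin (n + 1) → ℂ) a y x R, blk 1 (-w) 0 1 * blk a y x R * blk 1 w 0 1 =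
        blk (a - w ⬝ᵥ x) ((a - w ⬝ᵥ x) • w + (y - w ᵥ* R)) x (vecMulVec x w + R) := by
      intro w a y x R
      rw [blk_mul, blk_mul]
      simp [sub_eq_add_neg, neg_vecMul]
    have s3 : ∀ (y x : Fin (n + 1) → ℂ) R, x ≠ 0 → (blk δ y x R).det = A.det →
        Good (blk δ y x R) β γ := by
      intro y x R hx e
      by_cases hS : n = 0 ∨ ¬ ∃ c : ℂ, R - δ⁻¹ • vecMulVec x y = c • (1 : Matrix _ _ ℂ)
      · exact fin y x R e hS
      rw [not_or, not_not] at hS
      obtain ⟨hn, σ, hσ⟩ := hS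
      obtain ⟨j, hj⟩ := Function.ne_iff.1 hx
      have : Nontrivial (Fin (n + 1)) := Fin.nontrivial_iff_two_le.2 (by omega)
      obtain ⟨l, hl⟩ := exists_ne j
      have hσ0 : σ ≠ 0 := by
        rintro rfl
        have h1 := hdet2 y x R e
        rw [hσ, zero_smul, det_zero] at h1
        exact Finset.prod_ne_zero_iff.2 (fun i _ => mul_ne_zero (hβ _) (hγ _)) h1
      let w : Fin (n + 1) → ℂ := Pi.single l (x j) - Pi.single j (x l)
      have hw : w ⬝ᵥ x = 0 := by simp [w, mul_comm]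
      have hwl : w l = x j := by simp [w, hl]
      have hR : w ᵥ* R = σ • w := by
        rw [sub_eq_iff_eq_add.1 hσ, vecMul_add, vecMul_smul, vecMul_smul, vecMul_one,
          vecMul_vecMulVec, hw]
        simp
      refine good_conj (up w) ?_
      have e2 := det_conj' (mul_eq_one_comm.1 (up w)) (blk δ y x R)
      rw [cup, hw, sub_zero] at e2 ⊢
      refine fin _ _ _ (e2.trans e) (Or.inr ?_)
      rintro ⟨τ, hτ⟩
      have h1 := congrFun (congrFun hτ j) l
      have h2 := congrFun (congrFun hσ j) l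
      simp only [Matrix.sub_apply, Matrix.add_apply, Matrix.smul_apply, vecMulVec_apply, hR,
        Pi.add_apply, Pi.sub_apply, Pi.smul_apply, smul_eq_mul, hwl, one_apply_ne hl.symm,
        mul_zero] at h1 h2
      have h3 : δ⁻¹ * (σ * (x j * x j)) = 0 := by
        linear_combination h1 - h2 + x j * x j * mul_inv_cancel₀ hδ
      exact mul_ne_zero (inv_ne_zero hδ) (mul_ne_zero hσ0 (mul_ne_zero hj hj)) h3
    have s2 : ∀ a (y x : Fin (n + 1) → ℂ) R, x ≠ 0 → (blk a y x R).det = A.det →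
        Good (blk a y x R) β γ := by
      intro a y x R hx e
      obtain ⟨j, hj⟩ := Function.ne_iff.1 hx
      have hj' : x j ≠ 0 := hj
      let w : Fin (n + 1) → ℂ := Pi.single j ((a - δ) / x j)
      have hw : a - w ⬝ᵥ x = δ := by simp [w, div_mul_cancel₀ _ hj']
      refine good_conj (up w) ?_
      have e2 := det_conj' (mul_eq_one_comm.1 (up w)) (blk a y x R)
      rw [cup, hw] at e2 ⊢
      exact s3 _ _ _ hx (e2.trans e)
    obtain ⟨a, y, x, R, e⟩ := exists_blk A
    by_cases hu : ∀ u : Fin (n + 1) → ℂ, x + R *ᵥ u - (a + y ⬝ᵥ u) • u = 0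
    · exfalso
      refine hA.resolve_left (Nat.succ_ne_zero n) ⟨a, ?_⟩
      have h0 : x = 0 := by simpa using hu 0
      have h1 : ∀ j, y j = 0 ∧ ∀ i, R i j = a * (if i = j then 1 else 0) := by
        intro j
        have p1 := fun i => congrFun (hu (Pi.single j 1)) i
        have p2 := congrFun (hu (-Pi.single j 1)) j
        have p3 := p1 j
        simp [h0, mulVec_neg] at p2 p3
        have hy : y j = 0 := by linear_combination (-1 / 2 : ℂ) * p3 + (-1 / 2 : ℂ) * p2
        refine ⟨hy, fun i => ?_⟩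
        have p4 := p1 i
        simpa [h0, hy, Pi.single_apply, sub_eq_zero] using p4
      rw [e, h0, (funext fun j => (h1 j).1 : y = 0), ← blk_smul_one]
      congr 1
      ext i j
      rw [(h1 j).2 i, Matrix.smul_apply, one_apply, smul_eq_mul]
    · obtain ⟨u, hu⟩ := not_forall.1 hu
      refine good_conj (lo u) ?_
      have e2 := det_conj' (mul_eq_one_comm.1 (lo u)) A
      rw [e, blk_mul, blk_mul] at e2 ⊢
      refine s2 _ _ _ _ (fun h0 => hu ?_) (by rw [e2, e])
      rw [← h0]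
      ext i
      simp [add_mulVec, neg_mulVec, vecMulVec_mulVec]
      ring

theorem diag_of_spec {M : Matrix (Fin n) (Fin n) ℂ} {μ : Fin n → ℂ} (hμ : Function.Injective μ)
    (h : ∀ p, (μ p • (1 : Matrix _ _ ℂ) - M).det = 0) :
    ∃ P P' : Matrix (Fin n) (Fin n) ℂ, P * P' = 1 ∧ M = P * diagonal μ * P' := by
  choose v hv hv2 using fun p => exists_mulVec_eq_zero_iff.2 (h p)
  have hv3 : ∀ p, M *ᵥ v p = μ p • v p := fun p => by
    have := hv2 p
    rw [sub_mulVec, smul_mulVec, one_mulVec, sub_eq_zero] at this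
    exact this.symm
  have hli := Module.End.eigenvectors_linearIndependent' (Matrix.toLin' M) μ hμ v fun p =>
    ⟨Module.End.mem_eigenspace_iff.2 (by rw [toLin'_apply, hv3]), hv p⟩
  obtain ⟨U, hU⟩ : IsUnit (Matrix.of v)ᵀ := linearIndependent_cols_iff_isUnit.1 hli
  have e : M * (Matrix.of v)ᵀ = (Matrix.of v)ᵀ * diagonal μ := by
    ext i p
    have := congrFun (hv3 p) i
    rw [mul_diagonal, mul_comm]
    exact this
  refine ⟨U, ↑U⁻¹, U.mul_inv, ?_⟩
  rw [hU, ← e, ← hU, Units.mul_inv_cancel_right]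

theorem exists_plus (n : ℕ) : ∃ β : Fin n → ℝ, Function.Injective β ∧ (∀ i, 0 < β i) ∧
    (∀ i, β i * β i.rev = 1) ∧ ∏ i, β i = 1 := by
  refine ⟨fun i => Real.exp ((i.rev.val : ℝ) - i.val), fun i j h => ?_, fun i => Real.exp_pos _,
    fun i => ?_, ?_⟩
  · have h1 : ((i.rev.val : ℤ) - i.val) = (j.rev.val : ℤ) - j.val := by
      exact_mod_cast Real.exp_eq_exp.1 h
    have a := Fin.val_rev i
    have b := Fin.val_rev j
    have := i.2
    have := j.2
    exact Fin.ext (by omega)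
  · rw [← Real.exp_add, Fin.rev_rev]
    simp
  · rw [← Real.exp_sum, Finset.sum_sub_distrib,
      Fintype.sum_bijective Fin.rev Fin.rev_bijective _ (fun i : Fin n => (i.val : ℝ))
        fun _ => rfl]
    simp

theorem exists_beta (n : ℕ) {ε : ℂ} (hε : ε = 1 ∨ ε = -1) :
    ∃ (β : Fin (n + 1) → ℂ) (σ : Fin (n + 1) → Fin (n + 1)), Function.Injective β ∧
      (∀ i, σ (σ i) = i) ∧ (∀ i, β i * β (σ i) = 1) ∧ ∏ i, β i = ε := by
  rcases hε with rfl | rfl
  · obtain ⟨β, h1, -, h3, h4⟩ := exists_plus (n + 1)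
    exact ⟨fun i => β i, Fin.rev, Complex.ofReal_injective.comp h1, Fin.rev_rev,
      fun i => by rw [← Complex.ofReal_mul, h3, Complex.ofReal_one],
      by rw [← Complex.ofReal_prod, h4, Complex.ofReal_one]⟩
  · obtain ⟨β, h1, h2, h3, h4⟩ := exists_plus n
    refine ⟨Fin.cons (-1) fun i => β i, Fin.cons 0 fun i => i.rev.succ, ?_, fun i => ?_,
      fun i => ?_, ?_⟩
    · refine Fin.cons_injective_iff.2 ⟨?_, Complex.ofReal_injective.comp h1⟩
      rintro ⟨i, hi⟩
      have : β i = -1 := by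
        have h5 : ((β i : ℝ) : ℂ) = -1 := hi
        exact_mod_cast h5
      linarith [h2 i]
    · refine Fin.cases ?_ (fun i => ?_) i <;> simp
    · refine Fin.cases ?_ (fun i => ?_) i
      · simp
      · simp only [Fin.cons_succ]
        exact_mod_cast h3 i
    · rw [Fin.prod_univ_succ]
      simp only [Fin.cons_succ, Fin.cons_zero]
      rw [← Complex.ofReal_prod, h4]
      simp

/-- A non-scalar matrix is a product of two involutions and a conjugate of `C`. -/
theorem two_inv_mul {A C : Matrix (Fin (n + 1)) (Fin (n + 1)) ℂ} {μ : Fin (n + 1) → ℂ}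
    (hμ : Function.Injective μ) (hC : ∀ p, μ p ∈ spectrum ℂ C) (hA : ¬ ∃ c : ℂ, A = c • 1)
    (hd : A.det * A.det = 1) (hd' : C.det * C.det = 1) :
    ∃ K₁ K₂ P P' : Matrix (Fin (n + 1)) (Fin (n + 1)) ℂ, K₁ * K₁ = 1 ∧ K₂ * K₂ = 1 ∧ P * P' = 1 ∧
      A = K₁ * K₂ * (P * C * P') := by
  obtain ⟨Q, Q', hQ, eC⟩ := diag_of_spec hμ (M := C) fun p => by
    have := hC p
    rwa [spectrum.mem_iff, isUnit_iff_isUnit_det, isUnit_iff_ne_zero, not_not,
      Algebra.algebraMap_eq_smul_one] at this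
  have hp : ∏ i, μ i = C.det := by rw [eC, det_conj' hQ, det_diagonal]
  obtain ⟨β, σ, hβ, hσ, hβσ, hβp⟩ := exists_beta n (ε := A.det * C.det)
    (mul_self_eq_one_iff.1 (by linear_combination (C.det * C.det) * hd + hd'))
  obtain ⟨B, C', e, hB, hC'⟩ := sourour n A β μ (Or.inr hA)
    (fun i => left_ne_zero_of_mul (by rw [hβσ i]; exact one_ne_zero))
    (Finset.prod_ne_zero_iff.1 (by rw [hp]; exact left_ne_zero_of_mul (by rw [hd']; simp)) ·
      (Finset.mem_univ _))
    (by rw [Finset.prod_mul_distrib, hβp, hp, mul_assoc, hd', mul_one])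
  obtain ⟨S, S', hS, eB⟩ := diag_of_spec hβ (M := B) fun p => by
    rw [hB]; exact Finset.prod_eq_zero (Finset.mem_univ p) (sub_self _)
  obtain ⟨T, T', hT, eT⟩ := diag_of_spec hμ (M := C') fun p => by
    rw [hC']; exact Finset.prod_eq_zero (Finset.mem_univ p) (sub_self _)
  have hS' : ∀ X, S' * (S * X) = X := fun X => by rw [← mul_assoc, mul_eq_one_comm.1 hS, one_mul]
  have hQ' : ∀ X, Q' * (Q * X) = X := fun X => by rw [← mul_assoc, mul_eq_one_comm.1 hQ, one_mul]
  have k : ∀ K : Matrix (Fin (n + 1)) (Fin (n + 1)) ℂ, K * K = 1 →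
      S * K * S' * (S * K * S') = 1 := fun K hK => by
    simp only [mul_assoc, hS']
    rw [← mul_assoc K, hK, one_mul, hS]
  have hD : diagonal β = mon σ β * mon σ fun _ => 1 := by
    ext i j
    rw [Matrix.mul_apply, Finset.sum_eq_single (σ i), diagonal_apply]
    · simp [mon, hσ, eq_comm]
    · intro l _ hl
      simp [mon, hl]
    · simp
  refine ⟨S * mon σ β * S', S * mon σ (fun _ => 1) * S', T * Q', Q * T', k _ (mon_sq hσ hβσ),
    k _ (mon_sq hσ fun _ => one_mul 1), ?_, ?_⟩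
  · simp only [mul_assoc, hQ', hT]
  · rw [e, eB, eT, eC, hD]
    simp only [mul_assoc, hS', hQ']

end Pool.Agent.FS.RevInv
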