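import Pool.Agent.FS.RevInv.Four
import Pool.Agent.FS.RevInv.Abs

/-! Substitutions close to the identity raise the order. -/

set_option autoImplicit false

namespace Pool.Agent.FS.RevInv

open MvPowerSeries Pool.Agent.Lib.MP_9aaefc_al

variable {n : ℕ}

theorem unip_step' (t : ℕ) (ψ : PS n →ₐ[ℂ] PS n) (hψ : ∀ k, ∀ f ∈ ordI n k, ψ f ∈ ordI n k)
    (hX : ∀ i, ψ (X i) - X i ∈ ordI n (1 + t)) (j : ℕ) (f : PS n) (hf : f ∈ ordI n j) :
    ψ f - f ∈ ordI n (j + t) := by
  have hmul : ∀ (j l : ℕ) (a b : PS n), a ∈ ordI n j → ψ a - a ∈ ordI n (j + t) →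
      b ∈ ordI n l → ψ b - b ∈ ordI n (l + t) → ψ (a * b) - a * b ∈ ordI n (j + l + t) := by
    intro j l a b ha ha' hb hb'
    have e : ψ (a * b) - a * b = (ψ a - a) * ψ b + a * (ψ b - b) := by
      rw [map_mul]; ring
    rw [e]
    refine Ideal.add_mem _ ?_ ?_
    · have := mul_mem_ordI ha' (hψ _ _ hb)
      rwa [show j + t + l = j + l + t by ring] at this
    · have := mul_mem_ordI (k := j) (l := l + t) ha hb'
      rwa [← add_assoc] at this
  have hmon : ∀ d : Fin n →₀ ℕ, (monomial d (1 : ℂ) : PS n) ∈ ordI n d.degree ∧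
      ψ (monomial d 1) - monomial d 1 ∈ ordI n (d.degree + t) := by
    intro d
    induction d using Finsupp.induction_linear with
    | zero =>
      refine ⟨by simp [mem_ordI], ?_⟩
      have : (monomial (0 : Fin n →₀ ℕ) (1 : ℂ) : PS n) = 1 := rfl
      rw [this, map_one, sub_self]
      exact Ideal.zero_mem _
    | add d e hd he =>
      have : (monomial (d + e) (1 : ℂ) : PS n) = monomial d 1 * monomial e 1 := by
        rw [monomial_mul_monomial, one_mul]
      rw [this, map_add]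
      exact ⟨mul_mem_ordI hd.1 he.1, hmul _ _ _ _ hd.1 hd.2 he.1 he.2⟩
    | single i m =>
      rw [← X_pow_eq, Finsupp.degree_single]
      induction m with
      | zero =>
        refine ⟨by simp [mem_ordI], ?_⟩
        rw [pow_zero, map_one, sub_self]
        exact Ideal.zero_mem _
      | succ m ih =>
        rw [pow_succ]
        exact ⟨mul_mem_ordI ih.1 (X_mem i), hmul _ _ _ _ ih.1 ih.2 (X_mem i) (hX i)⟩
  set p : MvPolynomial (Fin n) ℂ := truncTotal (j + t) f with hp
  have hr := sub_trunc_mem (j + t) f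
  rw [← hp] at hr
  have e : ψ f - f = (ψ (f - p) - (f - p)) + (ψ p - p) := by
    rw [map_sub]; ring
  rw [e]
  refine Ideal.add_mem _ (Ideal.sub_mem _ (hψ _ _ hr) hr) ?_
  have hsum : (p : PS n) = ∑ d ∈ p.support, (p.coeff d) • (monomial d (1 : ℂ) : PS n) := by
    conv_lhs => rw [p.as_sum]
    rw [← MvPolynomial.coeToMvPowerSeries.ringHom_apply, map_sum]
    refine Finset.sum_congr rfl fun d _ => ?_
    rw [MvPolynomial.coeToMvPowerSeries.ringHom_apply, MvPolynomial.coe_monomial, ← map_smul,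
      smul_eq_mul, mul_one]
  rw [hsum, map_sum, ← Finset.sum_sub_distrib]
  refine Ideal.sum_mem _ fun d hd => ?_
  rw [map_smul, ← smul_sub, Algebra.smul_def]
  refine Ideal.mul_mem_left _ _ (ordI_anti ?_ (hmon d).2)
  have h1 : p.coeff d ≠ 0 := MvPolynomial.mem_support_iff.mp hd
  by_contra hlt
  apply h1
  have hlt' : d.degree < j := by omega
  rw [hp, coeff_truncTotal _ (by omega)]
  exact mem_ordI_iff.mp hf d hlt'

theorem sig_congr {k : ℕ} {a b : Fin n → PS n} (ha : ∀ i, constantCoeff (a i) = 0)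
    (hb : ∀ i, constantCoeff (b i) = 0) (h : ∀ i, a i - b i ∈ ordI n k) (f : PS n) :
    sig a ha f - sig b hb f ∈ ordI n k := by
  rw [← Ideal.Quotient.eq]
  refine algHom_ext_trunc k ((Ideal.Quotient.mkₐ ℂ (ordI n k)).comp (sig a ha))
    ((Ideal.Quotient.mkₐ ℂ (ordI n k)).comp (sig b hb))
    (fun f hf => Ideal.Quotient.eq_zero_iff_mem.mpr (sig_mem a ha hf))
    (fun f hf => Ideal.Quotient.eq_zero_iff_mem.mpr (sig_mem b hb hf)) (fun i => ?_) f
  simp only [AlgHom.comp_apply, Ideal.Quotient.mkₐ_eq_mk]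
  rw [sig_X, sig_X, Ideal.Quotient.eq]
  exact h i

end Pool.Agent.FS.RevInv
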