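import Pool.Agent.FS.RevInv.Step

/-! Three linear involutions without common invariants on homogeneous vector fields. -/

set_option autoImplicit false

namespace Pool.Agent.FS.RevInv

open MvPowerSeries Pool.Agent.Lib.MP_9aaefc_al

variable {m : ℕ}

theorem neg_one_ne : (-1 : Fin (m + 2)) ≠ 0 := neg_ne_zero.2 Fin.zero_ne_one.symm

/-- The matrix of `x 0 ↦ - x 0 + x 1 + x (-1)`, `x l ↦ x (-l)`. -/
def tw (m : ℕ) : Matrix (Fin (m + 2)) (Fin (m + 2)) ℂ :=
  Matrix.of fun i j => if i = 0 then
    (if j = 0 then -1 else 0) + ((if j = 1 then 1 else 0) + (if j = -1 then 1 else 0))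
    else if j = -i then 1 else 0

theorem tw_row {M : Type*} [AddCommGroup M] [Module ℂ M] (v : Fin (m + 2) → M)
    (i : Fin (m + 2)) : ∑ j, tw m i j • v j =
      if i = 0 then - v 0 + (v 1 + v (-1)) else v (-i) := by
  simp only [tw, Matrix.of_apply]
  split_ifs <;> simp [add_smul, Finset.sum_add_distrib]

theorem tw_sq : tw m * tw m = 1 := by
  ext i j
  have := tw_row (fun l => tw m l j) i
  simp only [smul_eq_mul] at this
  rw [Matrix.mul_apply, this, Matrix.one_apply]
  by_cases h0 : i = 0
  · subst h0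
    simp only [tw, Matrix.of_apply, if_true, if_neg (neg_one_ne (m := m)),
      if_neg (Fin.zero_ne_one (n := m)).symm, neg_neg, eq_comm (a := (0 : Fin (m + 2)))]
    split_ifs <;> simp
  · simp [tw, h0, eq_comm]

theorem lin_tw (i : Fin (m + 2)) : lin (tw m) i =
    if i = 0 then - X 0 + (X 1 + X (-1)) else X (-i) :=
  tw_row (fun j => (X j : PS (m + 2))) i

theorem sig_tw_aux (η : Fin (m + 2) →₀ ℕ) (h : η 0 = 0) :
    sig (lin (tw m)) (lin_const _) (monomial η 1) = monomial (η.mapDomain fun l => -l) 1 := by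
  induction η using Finsupp.induction_linear with
  | zero => simp
  | add a b ha hb =>
    rw [Finsupp.add_apply] at h
    rw [mon_add, map_mul, ha (by omega), hb (by omega), Finsupp.mapDomain_add, mon_add]
  | single i t =>
    rw [← X_pow_eq, map_pow, sig_X, lin_tw, Finsupp.mapDomain_single, ← X_pow_eq]
    by_cases h0 : i = 0
    · subst h0
      rw [Finsupp.single_eq_same] at h
      simp [h]
    · rw [if_neg h0]

theorem sig_tw (η : Fin (m + 2) →₀ ℕ) (h : η 0 = 0) (b : ℕ) :
    sig (lin (tw m)) (lin_const _) (monomial (η + Finsupp.single 0 b) 1) =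
      ∑ l ∈ Finset.range (b + 1), ((-1 : ℂ) ^ l * b.choose l) •
        (monomial ((η.mapDomain fun l => -l) + Finsupp.single 0 l) 1 *
          (X 1 + X (-1) : PS (m + 2)) ^ (b - l)) := by
  rw [mon_add, map_mul, sig_tw_aux η h, ← X_pow_eq, map_pow, sig_X, lin_tw, if_pos rfl, add_pow,
    Finset.mul_sum]
  refine Finset.sum_congr rfl fun l _ => ?_
  rw [mon_add, ← X_pow_eq, Algebra.smul_def, neg_pow]
  simp only [map_mul, map_pow, map_neg, map_one, map_natCast]
  ring

theorem coeff_Y (ν : Fin (m + 2) →₀ ℕ) (t : ℕ) : ∀ d : Fin (m + 2) →₀ ℕ,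
    coeff d (monomial ν (1 : ℂ) * (X 1 + X (-1) : PS (m + 2)) ^ t) ≠ 0 → d 0 = ν 0 := by
  induction t with
  | zero =>
    intro d h
    rw [pow_zero, mul_one, coeff_monomial] at h
    by_cases e : d = ν
    · rw [e]
    · simp [e] at h
  | succ t ih =>
    intro d h
    have key : ∀ i : Fin (m + 2), i ≠ 0 →
        coeff d (monomial ν (1 : ℂ) * (X 1 + X (-1) : PS (m + 2)) ^ t * X i) ≠ 0 → d 0 = ν 0 := by
      intro i hi h
      rw [X_def i, coeff_mul_monomial] at h
      split_ifs at h with h1
      · have := ih _ (left_ne_zero_of_mul h)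
        simpa [hi] using this
      · exact absurd rfl h
    rw [pow_succ, ← mul_assoc, mul_add, map_add] at h
    by_cases h1 : coeff d (monomial ν (1 : ℂ) * (X 1 + X (-1) : PS (m + 2)) ^ t * X 1) = 0
    · rw [h1, zero_add] at h
      exact key _ neg_one_ne h
    · exact key _ Fin.zero_ne_one.symm h1

theorem map_neg_zero (η : Fin (m + 2) →₀ ℕ) : (η.mapDomain fun l => -l) 0 = η 0 := by
  have := Finsupp.mapDomain_apply (neg_injective (G := Fin (m + 2))) η 0
  rwa [neg_zero] at this

theorem coeff_tw_le (β d : Fin (m + 2) →₀ ℕ)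
    (h : coeff d (sig (lin (tw m)) (lin_const _) (monomial β 1)) ≠ 0) :
    d 0 < β 0 ∨ d = β.mapDomain fun l => -l := by
  have e : β = β.erase 0 + Finsupp.single 0 (β 0) := (Finsupp.erase_add_single 0 β).symm
  have h0 : β.erase 0 0 = 0 := Finsupp.erase_same
  rw [e, sig_tw _ h0, map_sum] at h
  obtain ⟨l, hl, h⟩ := Finset.exists_ne_zero_of_sum_ne_zero h
  rw [map_smul, smul_eq_mul] at h
  have h1 := right_ne_zero_of_mul h
  have h2 := coeff_Y _ _ _ h1
  rw [Finsupp.add_apply, map_neg_zero, h0, Finsupp.single_eq_same, zero_add] at h2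
  rw [Finset.mem_range] at hl
  by_cases h3 : l = β 0
  · right
    rw [h3, Nat.sub_self, pow_zero, mul_one, coeff_monomial] at h1
    rw [e, Finsupp.mapDomain_add, Finsupp.mapDomain_single, neg_zero]
    by_contra h4
    exact h1 (if_neg h4)
  · left
    omega

theorem coeff_tw (η : Fin (m + 2) →₀ ℕ) (h : η 0 = 0) (c : ℕ) :
    coeff ((η.mapDomain fun l => -l) + Finsupp.single 0 c + Finsupp.single (-1) 1)
      (sig (lin (tw m)) (lin_const _) (monomial (η + Finsupp.single 0 (c + 1)) 1)) ≠ 0 := by
  rw [sig_tw _ h, map_sum, Finset.sum_eq_single c]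
  · rw [map_smul, smul_eq_mul, coeff_add_monomial_mul, show c + 1 - c = 1 by omega, pow_one,
      map_add, coeff_single_X, coeff_single_X, if_pos rfl, one_mul]
    refine mul_ne_zero (mul_ne_zero (pow_ne_zero _ (by norm_num)) ?_) ?_
    · exact_mod_cast (Nat.choose_pos (Nat.le_succ c)).ne'
    · split_ifs <;> norm_num
  · intro l _ hl
    rw [map_smul, smul_eq_mul]
    refine mul_eq_zero_of_right _ ?_
    by_contra h1
    have := coeff_Y _ _ _ h1
    simp at this
    exact hl this.symm
  · simp

theorem central_pos {γ : Fin (m + 2) →₀ ℕ} {j : Fin (m + 2)} (hγ : 2 ≤ γ.degree)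
    (hc : ∀ l, wt γ j l = wt γ j 0) (l : Fin (m + 2)) : 1 ≤ γ l := by
  by_contra h1
  obtain ⟨p, hp⟩ := exists_ne j
  have a := hc l
  have b := hc p
  have h0 : γ = Finsupp.single j 1 := by
    ext q
    have c := hc q
    simp only [wt, if_neg hp] at a b c
    rw [Finsupp.single_apply]
    by_cases h3 : q = j
    · rw [if_pos h3] at c
      rw [if_pos h3.symm]
      split_ifs at a b c <;> omega
    · rw [if_neg h3] at c
      rw [if_neg (Ne.symm h3)]
      split_ifs at a b c <;> omega
  rw [h0, Finsupp.degree_single] at hγ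
  omega

theorem indep {n : ℕ} {σ : Fin n → Fin n} (hσ : ∀ i, σ (σ i) = i) {θ : Fin n → ℝ}
    (hθ : LinearIndependent ℚ θ) (w : Fin n → ℤ)
    (h2 : ∑ l, (w l : ℝ) * (θ l - θ (σ l)) = 0) (l : Fin n) : w (σ l) = w l := by
  have h3 : ∑ l, (w l : ℝ) * θ (σ l) = ∑ l, (w (σ l) : ℝ) * θ l := by
    have hinv : Function.Involutive σ := hσ
    refine Fintype.sum_bijective σ hinv.bijective _ _ fun l => ?_
    rw [hσ]
  have h4 := Fintype.linearIndependent_iff.1 hθ (fun l => ((w l - w (σ l) : ℤ) : ℚ)) (by
    simp only [mul_sub, Finset.sum_sub_distrib, h3] at h2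
    simp only [Rat.smul_def, Rat.cast_intCast, Int.cast_sub, Rat.cast_sub, sub_mul,
      Finset.sum_sub_distrib]
    exact h2) l
  have h5 : w l - w (σ l) = 0 := by exact_mod_cast h4
  omega

theorem spec_of_vecMul {n : ℕ} {M : Matrix (Fin n) (Fin n) ℂ} {μ : ℂ} {u : Fin n → ℂ} (hu : u ≠ 0)
    (h : Matrix.vecMul u M = μ • u) : μ ∈ spectrum ℂ M := by
  rw [spectrum.mem_iff, Matrix.isUnit_iff_isUnit_det, isUnit_iff_ne_zero, not_not,
    ← Matrix.exists_vecMul_eq_zero_iff]
  refine ⟨u, hu, ?_⟩
  rw [Matrix.vecMul_sub, Algebra.algebraMap_eq_smul_one, Matrix.vecMul_smul, Matrix.vecMul_one, h,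
    sub_self]

theorem spec_of_mulVec {n : ℕ} {M : Matrix (Fin n) (Fin n) ℂ} {μ : ℂ} {u : Fin n → ℂ} (hu : u ≠ 0)
    (h : Matrix.mulVec M u = μ • u) : μ ∈ spectrum ℂ M := by
  rw [spectrum.mem_iff, Matrix.isUnit_iff_isUnit_det, isUnit_iff_ne_zero, not_not,
    ← Matrix.exists_mulVec_eq_zero_iff]
  refine ⟨u, hu, ?_⟩
  rw [Matrix.sub_mulVec, Algebra.algebraMap_eq_smul_one, Matrix.smul_mulVec, Matrix.one_mulVec, h,
    sub_self]

theorem pair_inj {θ : Fin (m + 2) → ℝ} (hθ : LinearIndependent ℚ θ) {p q : Fin (m + 2)}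
    (h : (θ (1 - p) - θ p) + (θ (1 - -p) - θ (-p)) = (θ (1 - q) - θ q) + (θ (1 - -q) - θ (-q))) :
    p = q ∨ p = -q := by
  let a : Fin (m + 2) → ℤ := fun l => (if l = p then 1 else 0) + (if l = -p then 1 else 0) -
    (if l = q then 1 else 0) - (if l = -q then 1 else 0)
  have h1 := indep (σ := fun l => 1 - l) (fun l => sub_sub_cancel 1 l) hθ a (by
    simp only [a, Int.cast_sub, Int.cast_add, Int.cast_ite, Int.cast_one, Int.cast_zero, sub_mul,
      add_mul, ite_mul, one_mul, zero_mul, Finset.sum_sub_distrib, Finset.sum_add_distrib,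
      Finset.sum_ite_eq', Finset.mem_univ, if_true]
    linarith)
  have h2 : ∀ l, a (-l) = a l := fun l => by
    simp only [a, neg_eq_iff_eq_neg, neg_neg]
    ring
  have h3 := const_of_refl a h1 fun l => by rw [h2, h2, h1]
  have h4 : ∑ l, a l = 0 := by
    simp [a, Finset.sum_sub_distrib, Finset.sum_add_distrib]
  simp only [h3, Finset.sum_const, Finset.card_univ, Fintype.card_fin, nsmul_eq_mul] at h4
  have h5 := (h3 p).trans ((mul_eq_zero.1 h4).resolve_left (by positivity))
  by_contra h6
  rw [not_or] at h6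
  simp only [a, if_true, if_neg h6.1, if_neg h6.2] at h5
  split_ifs at h5 <;> omega

theorem spec_three {θ : Fin (m + 2) → ℝ} (hθ : LinearIndependent ℚ θ) :
    ∃ μ : Fin (m + 2) → ℂ, Function.Injective μ ∧ ∀ p, μ p ∈ spectrum ℂ
      (mon (fun l => 1 - l) (fun _ => 1) *
        mon (fun l => 1 - l) (fun l => (Real.exp (θ l - θ (1 - l)) : ℝ)) * tw m) := by
  let g : Fin (m + 2) → ℝ := fun l => θ (1 - l) - θ l
  have hD : mon (fun l : Fin (m + 2) => 1 - l) (fun _ => 1) *
      mon (fun l => 1 - l) (fun l => (Real.exp (θ l - θ (1 - l)) : ℝ)) =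
      Matrix.diagonal fun l => ((Real.exp (g l) : ℝ) : ℂ) := by
    ext i j
    rw [Matrix.mul_apply, Finset.sum_eq_single (1 - i), Matrix.diagonal_apply]
    · simp [mon, g, eq_comm]
    · intro l _ hl
      simp [mon, hl]
    · simp
  rw [hD]
  let r : Fin (m + 2) → ℝ := fun p =>
    (if p ≠ 0 ∧ p ≤ -p then 1 else -1) * Real.exp ((g p + g (-p)) / 2)
  have hr : ∀ p, r p * r p = Real.exp (g p) * Real.exp (g (-p)) := by
    intro p
    have : Real.exp ((g p + g (-p)) / 2) * Real.exp ((g p + g (-p)) / 2) =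
        Real.exp (g p) * Real.exp (g (-p)) := by
      rw [← Real.exp_add, ← Real.exp_add, add_halves]
    simp only [r]
    split_ifs <;> linarith
  refine ⟨fun p => (r p : ℂ), fun p q h => ?_, fun p => ?_⟩
  · have h1 : r p = r q := Complex.ofReal_injective h
    have h2 := hr p
    rw [h1, hr q, ← Real.exp_add, ← Real.exp_add, Real.exp_eq_exp] at h2
    rcases pair_inj hθ h2.symm with h3 | h3
    · exact h3
    · by_contra h4
      subst h3
      have h5 := Real.exp_pos ((g q + g (-q)) / 2)
      have h6 : q ≠ 0 := fun e => h4 (by rw [e, neg_zero])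
      simp only [r, neg_neg, ne_eq, neg_eq_zero, h6, not_false_eq_true, true_and,
        add_comm (g (-q))] at h1
      rcases lt_or_gt_of_ne h4 with h7 | h7
      · rw [if_pos h7.le, if_neg (not_le.2 h7)] at h1
        linarith
      · rw [if_neg (not_le.2 h7), if_pos h7.le] at h1
        linarith
  · by_cases hp : p = 0
    · subst hp
      refine spec_of_mulVec (u := Pi.single 0 1) (by simp) ?_
      funext i
      rw [Matrix.mulVec_single_one]
      by_cases hi : i = 0
      · simp [hi, tw, r, neg_one_ne.symm]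
      · simp [hi, tw, Ne.symm (neg_ne_zero.2 hi)]
    · have hp' : -p ≠ 0 := neg_ne_zero.2 hp
      refine spec_of_vecMul
        (u := Pi.single p (r p : ℂ) + Pi.single (-p) ((Real.exp (g p) : ℝ) : ℂ)) (fun h => ?_) ?_
      · have h1 := congrFun h (-p)
        have h2 := Real.exp_pos (g p)
        by_cases e : -p = p
        · rw [Pi.add_apply, Pi.single_eq_same, Pi.zero_apply, e, Pi.single_eq_same] at h1
          have h3 : r p + Real.exp (g p) = 0 := by exact_mod_cast h1
          have h4 := Real.exp_pos ((g p + g (-p)) / 2)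
          simp only [r, if_pos (And.intro hp e.ge)] at h3
          linarith
        · rw [Pi.add_apply, Pi.single_eq_same, Pi.single_eq_of_ne e, zero_add, Pi.zero_apply] at h1
          exact h2.ne' (by exact_mod_cast h1)
      · have h1 : (r p : ℂ) * r p = (Real.exp (g p) : ℝ) * (Real.exp (g (-p)) : ℝ) := by
          exact_mod_cast hr p
        funext j
        rw [Matrix.add_vecMul, Matrix.single_vecMul, Matrix.single_vecMul]
        simp only [Pi.add_apply, Pi.smul_apply, Matrix.row_apply, Matrix.diagonal_mul, tw,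
          Matrix.of_apply, if_neg hp, if_neg hp', neg_neg, smul_eq_mul, Pi.single_apply]
        split_ifs
        · linear_combination -h1
        · ring
        · linear_combination -h1
        · ring

theorem exists_three (m : ℕ) : ∃ A : Fin 3 → Matrix (Fin (m + 2)) (Fin (m + 2)) ℂ,
    (∀ a, A a * A a = 1) ∧
    (∃ μ : Fin (m + 2) → ℂ, Function.Injective μ ∧ ∀ p, μ p ∈ spectrum ℂ (A 0 * A 1 * A 2)) ∧
    ∀ (k : ℕ) (W : Submodule ℂ (Fin (m + 2) → PS (m + 2))),
      ordV (m + 2) (k + 2 + 1) ≤ W → (∀ a, ∀ v ∈ ordV (m + 2) (k + 2), v - rho (A a) v ∈ W) →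
      ordV (m + 2) (k + 2) ≤ W := by
  obtain ⟨θ, hθ⟩ := exists_linearIndependent_of_le_rank (R := ℚ) (M := ℝ) (n := m + 2) (by
    rw [Real.rank_rat_real]
    exact (Cardinal.natCast_lt_aleph0.le).trans Cardinal.aleph0_le_continuum)
  let s : Fin (m + 2) → Fin (m + 2) := fun l => 1 - l
  have hs : ∀ l, s (s l) = l := fun l => sub_sub_cancel 1 l
  have hs' : ∀ l : Fin (m + 2), (fun l => -l) ((fun l => -l) l) = l := fun l => neg_neg l
  let d : Fin (m + 2) → ℂ := fun l => (Real.exp (θ l - θ (s l)) : ℝ)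
  have hd : ∀ l, d l * d (s l) = 1 := by
    intro l
    simp only [d, hs]
    rw [← Complex.ofReal_mul, ← Real.exp_add]
    simp
  refine ⟨![mon s fun _ => 1, mon s d, tw m], fun a => ?_, spec_three hθ,
    fun k W hW hA => ?_⟩
  · fin_cases a
    · exact mon_sq hs fun _ => one_mul 1
    · exact mon_sq hs hd
    · exact tw_sq
  have stepA : ∀ β j, β.degree = k + 2 → ¬ (∀ l, wt β j (s l) = wt β j l) → mf β j ∈ W := by
    intro β j hβ hne
    have a0 : mf β j - rho (mon s fun _ => 1) (mf β j) ∈ W := hA 0 _ (mf_mem hβ j)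
    have a1 : mf β j - rho (mon s d) (mf β j) ∈ W := hA 1 _ (mf_mem hβ j)
    rw [rho_mon hs] at a0 a1
    simp only [one_pow, Finset.prod_const_one, mul_one, one_smul] at a0
    have a2 := W.sub_mem a0 a1
    rw [sub_sub_sub_cancel_left, ← sub_eq_zero.1 (sub_self (_ - _)), ← one_smul ℂ (mf _ (s j)),
      smul_smul, mul_one, ← sub_smul,
      W.smul_mem_iff (sub_ne_zero.2 fun h => hne (chi_eq_one hs hθ β j h))] at a2
    simpa using W.add_mem a0 a2
  have supp : ∀ (β β' : Fin (m + 2) →₀ ℕ) (j i : Fin (m + 2)),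
      coeff β' (rho (tw m) (mf β j) i) ≠ 0 →
      (i = -j ∨ (i = 0 ∧ j ≠ 0)) ∧ (β' 0 < β 0 ∨ β' = β.mapDomain fun l => -l) := by
    intro β β' j i h
    rw [rho_mf, map_smul, smul_eq_mul] at h
    refine ⟨?_, coeff_tw_le β β' (right_ne_zero_of_mul h)⟩
    have h1 := left_ne_zero_of_mul h
    by_cases a : i = 0
    · by_cases b : j = 0
      · left
        rw [a, b, neg_zero]
      · exact Or.inr ⟨a, b⟩
    · left
      by_contra b
      apply h1
      have : j ≠ -i := fun e => b (by rw [e, neg_neg])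
      simp [tw, a, this]
  have main : ∀ (μ : ℕ) (j : Fin (m + 2)) (β : Fin (m + 2) →₀ ℕ), β.degree = k + 2 →
      β 0 + (if j = 0 then 0 else 1) = μ → mf β j ∈ W := by
    intro μ
    induction μ using Nat.strong_induction_on with
    | _ μ ih =>
    have stepB : ∀ β j, β.degree = k + 2 → β 0 + (if j = 0 then 0 else 1) = μ →
        ¬ (∀ l, wt β j l = wt β j 0) → mf β j ∈ W := by
      intro β j hβ hμ hne
      by_cases h1 : ∀ l, wt β j (s l) = wt β j l
      swap
      · exact stepA β j hβ h1
      have a0 : mf β j - rho (tw m) (mf β j) ∈ W := hA 2 _ (mf_mem hβ j)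
      have a1 := stepA (β.mapDomain fun l => -l) (-j) (by rw [Finsupp.degree_mapDomain, hβ])
        fun h => hne (const_of_refl _ h1 fun l => by
          have := h l
          rwa [wt_map hs' β j, wt_map hs' β j] at this)
      have a2 : rho (tw m) (mf β j) ∈ W := by
        refine mem_of_mf hW (rho_mem _ (mf_mem hβ j)) fun β' i hβ' hne' => ?_
        obtain ⟨h2 | ⟨h2, h3⟩, h4⟩ := supp β β' j i hne'
        · rcases h4 with h4 | h4
          · refine ih _ ?_ i β' hβ' rfl
            simp only [h2, neg_eq_zero]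
            omega
          · rwa [h2, h4]
        · refine ih _ ?_ i β' hβ' rfl
          rw [if_neg h3] at hμ
          rw [if_pos h2]
          rcases h4 with h4 | h4
          · omega
          · rw [h4, map_neg_zero]
            omega
      simpa using W.add_mem a0 a2
    have stepC : ∀ j, (j ≠ 0 → ∀ β, β.degree = k + 2 → β 0 = μ → mf β 0 ∈ W) →
        ∀ γ, γ.degree = k + 2 → γ 0 + (if j = 0 then 0 else 1) = μ → mf γ j ∈ W := by
      intro j hj γ hγ hμ
      by_cases hc : ∀ l, wt γ j l = wt γ j 0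
      swap
      · exact stepB γ j hγ hμ hc
      have h1 : 1 ≤ γ (-1) := central_pos (by omega) hc _
      obtain ⟨ν, hν, e⟩ : ∃ ν : Fin (m + 2) →₀ ℕ, ν 0 = 0 ∧
          γ = ν + Finsupp.single 0 (γ 0) + Finsupp.single (-1) 1 := by
        refine ⟨γ - (Finsupp.single 0 (γ 0) + Finsupp.single (-1) 1), by simp, ?_⟩
        rw [add_assoc, tsub_add_cancel_of_le]
        intro l
        by_cases a : l = 0
        · simp [a]
        · by_cases b : l = -1
          · simp [b, h1]
          · simp [a, b]
      have hνν : ((ν.mapDomain fun l => -l).mapDomain fun l => -l) = ν := by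
        rw [← Finsupp.mapDomain_comp]
        simp
      have hη : (ν.mapDomain fun l => -l) 0 = 0 := by rw [map_neg_zero, hν]
      have hco := coeff_tw _ hη (γ 0)
      rw [hνν, ← e] at hco
      set β := (ν.mapDomain fun l => -l) + Finsupp.single 0 (γ 0 + 1) with hβdef
      have hβ0 : β 0 = γ 0 + 1 := by
        rw [hβdef, Finsupp.add_apply, hη, Finsupp.single_eq_same, zero_add]
      have hβ' : (β.mapDomain fun l => -l) = ν + Finsupp.single 0 (γ 0 + 1) := by
        rw [hβdef, Finsupp.mapDomain_add, hνν, Finsupp.mapDomain_single, neg_zero]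
      have hdeg : (ν + Finsupp.single 0 (γ 0 + 1)).degree = k + 2 := by
        rw [e] at hγ
        simp only [map_add, Finsupp.degree_single] at hγ ⊢
        omega
      have hβ : β.degree = k + 2 := by
        rw [← hdeg, ← hβ', Finsupp.degree_mapDomain]
      have w0 : wt (ν + Finsupp.single 0 (γ 0 + 1)) j 0 = wt γ j 0 + 1 := by
        simp only [wt, Finsupp.add_apply, hν, Finsupp.single_eq_same]
        omega
      have w1 : ∀ l, l ≠ 0 → wt (ν + Finsupp.single 0 (γ 0 + 1)) j l ≤ wt γ j 0 := by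
        intro l hl
        have e1 := DFunLike.congr_fun e l
        rw [← hc l]
        simp only [wt, Finsupp.add_apply, Finsupp.single_eq_of_ne hl] at e1 ⊢
        omega
      have hW1 : mf (ν + Finsupp.single 0 (γ 0 + 1)) j ∈ W := by
        refine stepA _ j hdeg fun h => ?_
        have a := h 0
        have b := w1 (s 0) (by simp [s])
        omega
      have hW2 : mf β (-j) ∈ W := by
        refine stepA β (-j) hβ fun h => ?_
        have a := h 0
        have t : ∀ l, wt β (-j) l = wt (ν + Finsupp.single 0 (γ 0 + 1)) j (-l) := by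
          intro l
          have := wt_map hs' β (-j) (-l)
          simp only [neg_neg] at this
          rw [← hβ', this]
        rw [t, t, neg_zero] at a
        have b := w1 (-(s 0)) (by simp [s])
        omega
      have a0 : mf β (-j) - rho (tw m) (mf β (-j)) ∈ W := hA 2 _ (mf_mem hβ _)
      have a1 := W.sub_mem hW2 a0
      rw [sub_sub_cancel] at a1
      have hjj : tw m j (-j) ≠ 0 := by
        by_cases a : j = 0
        · simp [tw, a, neg_one_ne.symm]
        · simp [tw, a]
      refine mf_mem_of hW (rho_mem _ (mf_mem hβ _)) a1 hγ ?_ fun β' i hb hne hn => ?_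
      · rw [rho_mf, map_smul, smul_eq_mul]
        exact mul_ne_zero hjj hco
      · obtain ⟨h2 | ⟨h2, h3⟩, h4⟩ := supp β β' (-j) i hne
        · rw [neg_neg] at h2
          subst h2
          rcases h4 with h4 | h4
          · by_cases h5 : β' 0 = γ 0
            · exact stepB β' i hb (by rw [h5, hμ]) fun h =>
                hn ⟨central_unique (hb.trans hγ.symm) h hc, rfl⟩
            · exact ih _ (by omega) i β' hb rfl
          · rwa [h4, hβ']
        · subst h2
          rw [neg_ne_zero] at h3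
          rw [if_neg h3] at hμ
          rcases h4 with h4 | h4
          · exact ih _ (by rw [if_pos rfl]; omega) 0 β' hb rfl
          · exact hj h3 β' hb (by rw [h4, map_neg_zero]; omega)
    intro j
    exact stepC j fun _ β hβ h => stepC 0 (fun h0 => absurd rfl h0) β hβ (by simpa using h)
  intro v hv
  exact mem_of_mf hW hv fun β j hβ _ => main _ j β hβ rfl

end Pool.Agent.FS.RevInv
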